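import Pool.Agent.R550.MD.Main

set_option autoImplicit false

/-!
# The mixed metric dimension cannot be approximated within any constant factor unless `P = NP`

Definitions: `Pool/Agent/R550/MD/Defs.lean` (`graph`, `MixedResolving`, `mdim`, `vset`, `Approx`),
`Pool/Agent/NPC/Defs.lean` (`PolyTime`, `InNP`, `bits`) and `Pool/Agent/NPC/Classes.lean` (`InP`).

Proof. From the PCP theorem one gets a gap for vertex cover, and by iterated composition of
hypergraphs an arbitrarily large constant gap for Hitting Set with hyperedges of constant size. In
the graph of the reduction every hyperedge `C` has two adjacent vertices `u`, `v`, and the vertices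
closer to `u` than to `v` are `u` and the vertices of the elements of `C`; everything else is
resolved by a small set of further vertices.
-/

namespace Pool.Agent.Results.MP_a6fb51_lc.NoConstantFactor

open Pool.Agent.NPC Pool.Agent.R550.MD

/-- Let `c` be a real number. (1) For every language `L` in `NP` there are functions `f`, `k`,
computable in polynomial time, which map every word `x` to a connected graph `f x` and a number
`k x` such that the mixed metric dimension of the graph is at most `k x` if `x` is in `L`, and
greater than `c * k x` if `x` is not in `L`. (2) If there is a polynomial-time `c`-approximation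
algorithm for the mixed metric dimension of connected graphs, then `P = NP`. -/
theorem result (c : ℝ) :
    (∀ L : Set (List Bool), InNP L → ∃ (f : List Bool → List (List ℕ)) (k : List Bool → ℕ),
      PolyTime (fun x => bits (f x, k x)) ∧ ∀ x, (graph (f x)).Connected ∧
        (x ∈ L → mdim (graph (f x)) ≤ k x) ∧
        (x ∉ L → c * (k x : ℝ) < (mdim (graph (f x)) : ℝ))) ∧
    (Approx c → ∀ L : Set (List Bool), InNP L → InP L) := by
  refine ⟨fun L hL => ?_, fun h L hL => collapse h hL⟩
  obtain ⟨f, k, hfk, hx⟩ := gapMD c hL
  refine ⟨f, k, polyTime_bits hfk, fun x => ?_⟩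
  obtain ⟨h1, h2, h3⟩ := hx x
  refine ⟨h1, h2, fun hxL => ?_⟩
  have h4 : ((⌈c⌉₊ * k x : ℕ) : ℝ) < mdim (graph (f x)) := by exact_mod_cast h3 hxL
  refine lt_of_le_of_lt ?_ h4
  push_cast
  exact mul_le_mul_of_nonneg_right (Nat.le_ceil c) (by positivity)

end Pool.Agent.Results.MP_a6fb51_lc.NoConstantFactor
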